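import Mathlib

set_option autoImplicit false

namespace Pool.Agent.H695R3.LP

/-- the periods -/
def p (k : ℕ) : ℕ := ∏ j ∈ Finset.range k, 2 ^ (j + 5)

lemma p_zero : p 0 = 1 := by simp [p]

lemma p_succ (k : ℕ) : p (k + 1) = p k * 2 ^ (k + 5) := by
  simp [p, Finset.prod_range_succ]

lemma p_pos (k : ℕ) : 0 < p k := Finset.prod_pos fun _ _ => by positivity

lemma p_ge (k : ℕ) : 32 ^ k ≤ p k := by
  induction k with
  | zero => simp [p_zero]
  | succ k ih =>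
    rw [p_succ, pow_succ]
    refine Nat.mul_le_mul ih ?_
    calc 32 = 2 ^ 5 := by norm_num
      _ ≤ 2 ^ (k + 5) := Nat.pow_le_pow_right (by norm_num) (by omega)

lemma lt_p (k : ℕ) : k < p k := lt_of_lt_of_le (Nat.lt_pow_self (by norm_num)) (p_ge k)

lemma p_dvd {j k : ℕ} (h : j ≤ k) : p j ∣ p k := by
  induction k with
  | zero =>
    obtain rfl : j = 0 := by omega
    exact dvd_rfl
  | succ k ih =>
    rcases Nat.lt_or_ge j (k + 1) with h1 | h1
    · rw [p_succ]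
      exact (ih (by omega)).mul_right _
    · obtain rfl : j = k + 1 := by omega
      exact dvd_rfl

lemma p_lt_succ (k : ℕ) : p k < p (k + 1) := by
  rw [p_succ]
  have h := p_pos k
  have h2 : 2 ≤ 2 ^ (k + 5) := by
    calc 2 = 2 ^ 1 := by norm_num
      _ ≤ 2 ^ (k + 5) := Nat.pow_le_pow_right (by norm_num) (by omega)
  nlinarith

lemma exists_not_dvd {n : ℤ} (hn : n ≠ 0) : ∃ k : ℕ, ¬ ((p (k + 1) : ℕ) : ℤ) ∣ n := by
  refine ⟨n.natAbs, fun h => ?_⟩
  have h1 := Int.natAbs_dvd_natAbs.2 h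
  rw [Int.natAbs_natCast] at h1
  have h2 := Nat.le_of_dvd (Int.natAbs_pos.2 hn) h1
  have h3 := lt_p (n.natAbs + 1)
  omega

open Classical in
/-- the detuning of a nonzero site -/
noncomputable def f (k : ℕ) (n : ℤ) : ℝ :=
  if ((p (k + 1) : ℕ) : ℤ) ∣ n - p k ∨ ((p (k + 1) : ℕ) : ℤ) ∣ n + p k then (1 / 100) ^ p k
  else (1 / 2) ^ k

lemma f_pos (k : ℕ) (n : ℤ) : 0 < f k n := by
  unfold f; split_ifs <;> positivity

lemma f_le (k : ℕ) (n : ℤ) : f k n ≤ (1 / 2) ^ k := by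
  unfold f
  split_ifs
  · have h1 := (lt_p k).le
    calc (1 / 100 : ℝ) ^ p k ≤ (1 / 100) ^ k :=
          pow_le_pow_of_le_one (by norm_num) (by norm_num) h1
      _ ≤ (1 / 2) ^ k := pow_le_pow_left₀ (by norm_num) (by norm_num) k
  · exact le_rfl

lemma f_ge (k : ℕ) (n : ℤ) : (1 / 100 : ℝ) ^ p k ≤ f k n := by
  unfold f
  split_ifs
  · exact le_rfl
  · have h1 := (lt_p k).le
    calc (1 / 100 : ℝ) ^ p k ≤ (1 / 100) ^ k :=
          pow_le_pow_of_le_one (by norm_num) (by norm_num) h1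
      _ ≤ (1 / 2) ^ k := pow_le_pow_left₀ (by norm_num) (by norm_num) k

lemma f_add (k : ℕ) (n m : ℤ) (h : ((p (k + 1) : ℕ) : ℤ) ∣ m) : f k (n + m) = f k n := by
  unfold f
  have e1 : n + m - p k = (n - p k) + m := by ring
  have e2 : n + m + p k = (n + p k) + m := by ring
  exact if_congr (by rw [e1, e2, dvd_add_left h, dvd_add_left h]) rfl rfl

open Classical in
/-- the detuning -/
noncomputable def w (n : ℤ) : ℝ := if hn : n ≠ 0 then f (Nat.find (exists_not_dvd hn)) n else 0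

lemma w_zero : w 0 = 0 := by simp [w]

lemma w_eq {k : ℕ} {n : ℤ} (h1 : ((p k : ℕ) : ℤ) ∣ n) (h2 : ¬ ((p (k + 1) : ℕ) : ℤ) ∣ n) :
    w n = f k n := by
  classical
  have hn : n ≠ 0 := by
    rintro rfl
    exact h2 (dvd_zero _)
  unfold w
  rw [dif_pos hn]
  have : Nat.find (exists_not_dvd hn) = k := by
    rw [Nat.find_eq_iff]
    refine ⟨h2, fun j hj => ?_⟩
    rw [not_not]
    exact (Int.natCast_dvd_natCast.2 (p_dvd (by omega))).trans h1
  rw [this]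

/-- every nonzero site has a level -/
lemma exists_level {n : ℤ} (hn : n ≠ 0) :
    ∃ k : ℕ, ((p k : ℕ) : ℤ) ∣ n ∧ ¬ ((p (k + 1) : ℕ) : ℤ) ∣ n := by
  classical
  refine ⟨Nat.find (exists_not_dvd hn), ?_, Nat.find_spec (exists_not_dvd hn)⟩
  rcases h : Nat.find (exists_not_dvd hn) with _ | j
  · simp [p_zero]
  · have := Nat.find_min (exists_not_dvd hn) (m := j) (by omega)
    rwa [not_not] at this

lemma w_pos {n : ℤ} (hn : n ≠ 0) : 0 < w n := by
  obtain ⟨k, h1, h2⟩ := exists_level hn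
  rw [w_eq h1 h2]; exact f_pos _ _

lemma w_nonneg (n : ℤ) : 0 ≤ w n := by
  by_cases hn : n = 0
  · rw [hn, w_zero]
  · exact (w_pos hn).le

lemma w_le_of_dvd {k : ℕ} {n : ℤ} (h : ((p k : ℕ) : ℤ) ∣ n) : w n ≤ (1 / 2) ^ k := by
  by_cases hn : n = 0
  · rw [hn, w_zero]; positivity
  · obtain ⟨j, h1, h2⟩ := exists_level hn
    rw [w_eq h1 h2]
    have hkj : k ≤ j := by
      by_contra hlt
      exact h2 ((Int.natCast_dvd_natCast.2 (p_dvd (by omega))).trans h)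
    exact (f_le j n).trans (pow_le_pow_of_le_one (by norm_num) (by norm_num) hkj)

lemma w_le_one (n : ℤ) : w n ≤ 1 := by
  have h : ((p 0 : ℕ) : ℤ) ∣ n := by simp [p_zero]
  simpa using w_le_of_dvd h

lemma w_add {k : ℕ} {n m : ℤ} (h : ¬ ((p k : ℕ) : ℤ) ∣ n) (hm : ((p k : ℕ) : ℤ) ∣ m) :
    w (n + m) = w n := by
  have hn : n ≠ 0 := by
    rintro rfl
    exact h (dvd_zero _)
  obtain ⟨j, h1, h2⟩ := exists_level hn
  have hjk : j + 1 ≤ k := by
    by_contra hlt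
    exact h ((Int.natCast_dvd_natCast.2 (p_dvd (by omega))).trans h1)
  have hm' : ((p (j + 1) : ℕ) : ℤ) ∣ m := (Int.natCast_dvd_natCast.2 (p_dvd hjk)).trans hm
  have hm'' : ((p j : ℕ) : ℤ) ∣ m := (Int.natCast_dvd_natCast.2 (p_dvd (by omega))).trans hm
  rw [w_eq h1 h2, w_eq (k := j) ((dvd_add_left hm'').2 h1)
    (fun h3 => h2 ((dvd_add_left hm').1 h3)), f_add j n m hm']

lemma w_even (n : ℤ) : w (-n) = w n := by
  by_cases hn : n = 0
  · rw [hn, neg_zero]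
  · obtain ⟨k, h1, h2⟩ := exists_level hn
    rw [w_eq h1 h2, w_eq (k := k) (by rwa [dvd_neg]) (by rwa [dvd_neg])]
    unfold f
    have e1 : -n - (p k : ℤ) = -(n + p k) := by ring
    have e2 : -n + (p k : ℤ) = -(n - p k) := by ring
    exact if_congr (by rw [e1, e2, dvd_neg, dvd_neg, or_comm]) rfl rfl

lemma p_not_dvd (k : ℕ) : ¬ ((p (k + 1) : ℕ) : ℤ) ∣ (p k : ℤ) := by
  intro h
  have h1 := Nat.le_of_dvd (p_pos k) (Int.natCast_dvd_natCast.1 h)
  have h2 := p_lt_succ k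
  omega

lemma w_p (k : ℕ) : w (p k) = (1 / 100) ^ p k := by
  rw [w_eq (k := k) dvd_rfl (p_not_dvd k)]
  unfold f
  rw [if_pos (Or.inl (by rw [sub_self]; exact dvd_zero _))]

lemma w_neg_p (k : ℕ) : w (-(p k : ℤ)) = (1 / 100) ^ p k := by
  rw [w_even, w_p]

/-- a multiple `m p_k` with `2 ≤ m ≤ N_k - 2` has the large detuning -/
lemma w_mid {k m : ℕ} (h2 : 2 ≤ m) (hm : m + 2 ≤ 2 ^ (k + 5)) :
    w ((m : ℤ) * p k) = (1 / 2) ^ k := by
  have hp : (0 : ℤ) < p k := by exact_mod_cast p_pos k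
  have key : ∀ a : ℤ, 0 < a → a < 2 ^ (k + 5) → ¬ ((p (k + 1) : ℕ) : ℤ) ∣ a * p k := by
    intro a ha ha2 hd
    have h1 := Int.le_of_dvd (mul_pos ha hp) hd
    rw [p_succ] at h1
    push_cast at h1
    nlinarith
  have hm' : (m : ℤ) + 2 ≤ 2 ^ (k + 5) := by exact_mod_cast hm
  have h2' : (2 : ℤ) ≤ m := by exact_mod_cast h2
  rw [w_eq (k := k) (Dvd.intro_left _ rfl) (key m (by linarith) (by linarith))]
  unfold f
  rw [if_neg]
  rintro (h | h)
  · have e : (m : ℤ) * p k - p k = (m - 1) * p k := by ring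
    rw [e] at h
    exact key (m - 1) (by linarith) (by linarith) h
  · have e : (m : ℤ) * p k + p k = (m + 1) * p k := by ring
    rw [e] at h
    exact key (m + 1) (by linarith) (by linarith) h

lemma w_mul_ge {k m : ℕ} (h1 : 1 ≤ m) (hm : m + 1 ≤ 2 ^ (k + 5)) :
    (1 / 100 : ℝ) ^ p k ≤ w ((m : ℤ) * p k) := by
  have hp : (0 : ℤ) < p k := by exact_mod_cast p_pos k
  have hm' : (m : ℤ) + 1 ≤ 2 ^ (k + 5) := by exact_mod_cast hm
  have h1' : (1 : ℤ) ≤ m := by exact_mod_cast h1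
  have hd : ¬ ((p (k + 1) : ℕ) : ℤ) ∣ (m : ℤ) * p k := by
    intro hd
    have h3 := Int.le_of_dvd (mul_pos (by linarith) hp) hd
    rw [p_succ] at h3
    push_cast at h3
    nlinarith
  rw [w_eq (k := k) (Dvd.intro_left _ rfl) hd]
  exact f_ge _ _

end Pool.Agent.H695R3.LP
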