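import Pool.Agent.H695R3.LP.Chain
import Pool.Agent.H695R3.LP.Param

set_option autoImplicit false

open Real

namespace Pool.Agent.H695R3.LP

/-- a nonnegative solution on the window `(-p_K, p_K)` -/
structure Sol (lam E : ℝ) (K : ℕ) (u : ℤ → ℝ) : Prop where
  nonneg : ∀ n, 0 ≤ u n
  eq : ∀ n : ℤ, -(p K : ℤ) < n → n < p K → u (n + 1) + u (n - 1) = (E + lam * w n) * u n
  pos : 0 < u 0

/-- block relation -/
def Blk (K : ℕ) (u : ℤ → ℝ) (k : ℕ) (g η g' : ℝ) : Prop :=
  ∀ n : ℤ, ((p k : ℕ) : ℤ) ∣ n → -(p K : ℤ) ≤ n → n + p k ≤ p K →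
    u (n + 1) = g * u n + η * u (n + p k) ∧ u (n + p k - 1) = η * u n + g' * u (n + p k)

lemma exp_six : (400 : ℝ) ≤ exp 6 := by
  have h := Real.exp_one_gt_d9
  have h1 : exp 6 = exp 1 ^ 6 := by rw [← Real.exp_nat_mul]; norm_num
  rw [h1]
  calc (400 : ℝ) ≤ 2.7182818283 ^ 6 := by norm_num
    _ ≤ exp 1 ^ 6 := pow_le_pow_left₀ (by norm_num) h.le 6

lemma two_le_exp : (2 : ℝ) ≤ exp (7 / 10) := by
  have h := Real.log_two_lt_d9
  calc (2 : ℝ) = exp (log 2) := (Real.exp_log (by norm_num)).symm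
    _ ≤ exp (7 / 10) := Real.exp_le_exp.2 (by linarith)

lemma hundred_le_exp : (100 : ℝ) ≤ exp (49 / 10) := by
  have h1 : exp (49 / 10) = exp (7 / 10) ^ 7 := by rw [← Real.exp_nat_mul]; norm_num
  rw [h1]
  calc (100 : ℝ) ≤ 2 ^ 7 := by norm_num
    _ ≤ exp (7 / 10) ^ 7 := pow_le_pow_left₀ (by norm_num) two_le_exp 7

variable {lam E : ℝ} {K : ℕ} {u : ℤ → ℝ}

lemma well (h : Sol lam E K u) {k : ℕ} {g η g' : ℝ} (hb : Blk K u k g η g') {n : ℤ}
    (hn : ((p k : ℕ) : ℤ) ∣ n) (h1 : -(p K : ℤ) ≤ n - p k) (h2 : n + p k ≤ p K) :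
    (E - g - g' + lam * w n) * u n = η * (u (n + p k) + u (n - p k)) := by
  have hp : (0 : ℤ) < p k := by exact_mod_cast p_pos k
  have e0 := h.eq n (by linarith) (by linarith)
  have e1 := (hb n hn (by linarith) h2).1
  have e2 := (hb (n - p k) (dvd_sub hn dvd_rfl) h1 (by linarith)).2
  rw [sub_add_cancel] at e2
  rw [e1, e2] at e0
  linarith

lemma a_nonneg (h : Sol lam E K u) {k : ℕ} (hk : k ≤ K) {g η g' : ℝ} (hη : 0 < η)
    (hb : Blk K u k g η g') : 0 ≤ E - g - g' := by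
  have hpk : (p k : ℤ) ≤ p K := by exact_mod_cast Nat.le_of_dvd (p_pos K) (p_dvd hk)
  have := well h hb (n := 0) (dvd_zero _) (by linarith) (by linarith)
  rw [w_zero, mul_zero, add_zero] at this
  have h2 : 0 ≤ (E - g - g') * u 0 := by
    rw [this]
    exact mul_nonneg hη.le (add_nonneg (h.nonneg _) (h.nonneg _))
  exact nonneg_of_mul_nonneg_left h2 h.pos

/-- the key ratio -/
lemma ratio (hlam : 2 * exp 7 ≤ lam) {k : ℕ} {η W : ℝ}
    (hη2 : η ≤ exp (-(6 + (1 / 2) ^ k) * (p k - 1))) (hW : (1 / 100 : ℝ) ^ p k ≤ W) :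
    4 * 4 ^ p k * η ≤ lam * W := by
  have hp1 : (1 : ℝ) ≤ p k := by exact_mod_cast p_pos k
  have h1 : η ≤ exp (-6 * (p k - 1)) := by
    refine hη2.trans (Real.exp_le_exp.2 ?_)
    have h2 : (0 : ℝ) ≤ (1 / 2) ^ k := by positivity
    nlinarith
  have h2 : exp (-6 * ((p k : ℝ) - 1)) = exp 6 * (exp 6 ^ p k)⁻¹ := by
    rw [← Real.exp_nat_mul, ← Real.exp_neg, ← Real.exp_add]
    congr 1
    ring
  have h3 : (400 : ℝ) ^ p k ≤ exp 6 ^ p k := pow_le_pow_left₀ (by norm_num) exp_six _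
  have h4 : exp 7 = exp 6 * exp 1 := by rw [← Real.exp_add]; norm_num
  have h5 := Real.exp_one_gt_d9
  have h6 : (0 : ℝ) < exp 6 := exp_pos 6
  have h7 : (4 : ℝ) ^ p k * (exp 6 ^ p k)⁻¹ ≤ (1 / 100) ^ p k := by
    rw [← div_eq_mul_inv, div_le_iff₀ (by positivity)]
    calc (4 : ℝ) ^ p k = (1 / 100) ^ p k * 400 ^ p k := by
          rw [← mul_pow]; norm_num
      _ ≤ (1 / 100) ^ p k * exp 6 ^ p k := mul_le_mul_of_nonneg_left h3 (by positivity)
  calc 4 * 4 ^ p k * η ≤ 4 * 4 ^ p k * (exp 6 * (exp 6 ^ p k)⁻¹) := by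
        rw [← h2]; exact mul_le_mul_of_nonneg_left h1 (by positivity)
    _ = 4 * exp 6 * (4 ^ p k * (exp 6 ^ p k)⁻¹) := by ring
    _ ≤ 4 * exp 6 * (1 / 100) ^ p k := mul_le_mul_of_nonneg_left h7 (by positivity)
    _ ≤ lam * (1 / 100) ^ p k := by
        refine mul_le_mul_of_nonneg_right ?_ (by positivity)
        rw [h4] at hlam
        nlinarith
    _ ≤ lam * W := by
        refine mul_le_mul_of_nonneg_left hW ?_
        have := exp_pos 7
        linarith

/-- the product over the wells -/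
lemma prod_w (k : ℕ) :
    ∏ m ∈ Finset.Icc (1 : ℕ) (2 ^ (k + 5) - 1), (w ((m : ℤ) * p k))⁻¹ ≤
      (2 ^ k) ^ (2 ^ (k + 5) - 1) * (100 ^ p k * 100 ^ p k) := by
  set N := 2 ^ (k + 5) with hN
  have hN4 : 4 ≤ N := by
    calc 4 = 2 ^ 2 := by norm_num
      _ ≤ 2 ^ (k + 5) := Nat.pow_le_pow_right (by norm_num) (by omega)
  have h1 : ∀ m ∈ Finset.Icc 1 (N - 1), (w ((m : ℤ) * p k))⁻¹ ≤
      (2 ^ k : ℝ) * ((if m = 1 then 100 ^ p k else 1) * (if m = N - 1 then 100 ^ p k else 1)) := by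
    intro m hm
    rw [Finset.mem_Icc] at hm
    have hg1 : (1 : ℝ) ≤ 100 ^ p k := one_le_pow₀ (by norm_num)
    have hg2 : (1 : ℝ) ≤ 2 ^ k := one_le_pow₀ (by norm_num)
    have hge := w_mul_ge (k := k) (m := m) hm.1 (by omega)
    have hle : (w ((m : ℤ) * p k))⁻¹ ≤ 100 ^ p k := by
      have : (100 : ℝ) ^ p k = ((1 / 100) ^ p k)⁻¹ := by
        rw [one_div, inv_pow, inv_inv]
      rw [this]
      exact inv_anti₀ (by positivity) hge
    by_cases e1 : m = 1
    · rw [if_pos e1]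
      refine hle.trans ?_
      have h3 : (1 : ℝ) ≤ (if m = N - 1 then 100 ^ p k else 1) := by split_ifs <;> linarith
      calc (100 : ℝ) ^ p k = 1 * (100 ^ p k * 1) := by ring
        _ ≤ _ := by gcongr
    · by_cases e2 : m = N - 1
      · rw [if_pos e2, if_neg e1]
        refine hle.trans ?_
        calc (100 : ℝ) ^ p k = 1 * (1 * 100 ^ p k) := by ring
          _ ≤ _ := by gcongr
      · rw [if_neg e1, if_neg e2, w_mid (by omega) (by omega)]
        rw [mul_one, mul_one, one_div, inv_pow, inv_inv]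
  refine (Finset.prod_le_prod (fun m hm => ?_) h1).trans ?_
  · rw [Finset.mem_Icc] at hm
    have hge := w_mul_ge (k := k) (m := m) hm.1 (by omega)
    exact inv_nonneg.2 (le_trans (by positivity) hge)
  · rw [Finset.prod_mul_distrib, Finset.prod_mul_distrib, Finset.prod_const, Nat.card_Icc,
      Finset.prod_ite_eq', Finset.prod_ite_eq', if_pos, if_pos]
    · simp
    · rw [Finset.mem_Icc]; omega
    · rw [Finset.mem_Icc]; omega

lemma four_mul_le (k : ℕ) : 4 * k ≤ 16 ^ k := by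
  induction k with
  | zero => simp
  | succ k ih =>
    have h1 : 1 ≤ 16 ^ k := Nat.one_le_pow _ _ (by norm_num)
    rw [pow_succ]; omega

lemma aux_num (k : ℕ) : (k : ℝ) * 2 ^ k * 4 ≤ p k := by
  have h1 : (32 : ℝ) ^ k ≤ p k := by exact_mod_cast p_ge k
  have h2 : (32 : ℝ) ^ k = 2 ^ k * 16 ^ k := by rw [← mul_pow]; norm_num
  have h3 : (4 : ℝ) * k ≤ 16 ^ k := by exact_mod_cast four_mul_le k
  have h4 : (0 : ℝ) < 2 ^ k := by positivity
  nlinarith

lemma step_bound (hlam : 2 * exp 7 ≤ lam) {k : ℕ} {η B : ℝ} (hη : 0 < η)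
    (hη2 : η ≤ exp (-(6 + (1 / 2) ^ k) * (p k - 1)))
    (hB : B ≤ ∏ m ∈ Finset.Icc (1 : ℕ) (2 ^ (k + 5) - 1), (2 * η / lam * (w ((m : ℤ) * p k))⁻¹)) :
    η * B ≤ exp (-(6 + (1 / 2) ^ (k + 1)) * (p (k + 1) - 1)) := by
  set N := 2 ^ (k + 5) with hN
  have hN1 : 1 ≤ N := Nat.one_le_two_pow
  have hlam0 : 0 < lam := lt_of_lt_of_le (by have := exp_pos 7; linarith) hlam
  set s : ℝ := (1 / 2) ^ k with hs
  have hs0 : 0 < s := by positivity
  have hs1 : s ≤ 1 := pow_le_one₀ (by norm_num) (by norm_num)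
  have hp1 : (1 : ℝ) ≤ p k := by exact_mod_cast p_pos k
  have hl2 : 2 * η / lam ≤ exp (-(6 + s)) * η := by
    rw [mul_div_right_comm]
    refine mul_le_mul_of_nonneg_right ?_ hη.le
    rw [div_le_iff₀ hlam0]
    have h1 : exp (-(6 + s)) * exp 7 = exp (1 - s) := by rw [← exp_add]; congr 1; ring
    have h2 : 1 ≤ exp (1 - s) := Real.one_le_exp (by linarith)
    have h3 := mul_le_mul_of_nonneg_left hlam (exp_pos (-(6 + s))).le
    nlinarith
  have hprod : ∏ m ∈ Finset.Icc 1 (N - 1), (2 * η / lam * (w ((m : ℤ) * p k))⁻¹) ≤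
      (exp (-(6 + s)) * η) ^ (N - 1) * ((2 ^ k) ^ (N - 1) * (100 ^ p k * 100 ^ p k)) := by
    rw [Finset.prod_mul_distrib, Finset.prod_const, Nat.card_Icc]
    have e : N - 1 + 1 - 1 = N - 1 := by omega
    rw [e]
    refine mul_le_mul (pow_le_pow_left₀ (by positivity) hl2 _) (prod_w k) ?_ (by positivity)
    exact Finset.prod_nonneg fun m _ => inv_nonneg.2 (w_nonneg _)
  have hη3 : (exp (-(6 + s)) * η) ^ (N - 1) ≤ (exp (-(6 + s)) * exp (-(6 + s) * (p k - 1))) ^ (N - 1) :=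
    pow_le_pow_left₀ (by positivity) (mul_le_mul_of_nonneg_left hη2 (exp_pos _).le) _
  have h2k : ((2 : ℝ) ^ k) ^ (N - 1) ≤ exp (7 / 10 * k * (N - 1 : ℕ)) := by
    have : exp (7 / 10 * k * (N - 1 : ℕ)) = (exp (7 / 10) ^ k) ^ (N - 1) := by
      rw [← exp_nat_mul, ← exp_nat_mul]
      congr 1
      ring
    rw [this]
    exact pow_le_pow_left₀ (by positivity) (pow_le_pow_left₀ (by norm_num) two_le_exp k) _
  have h100 : (100 : ℝ) ^ p k ≤ exp (49 / 10 * p k) := by
    have : exp (49 / 10 * p k) = exp (49 / 10) ^ p k := by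
      rw [← exp_nat_mul]; congr 1; ring
    rw [this]
    exact pow_le_pow_left₀ (by norm_num) hundred_le_exp _
  have hNr : ((N - 1 : ℕ) : ℝ) = (N : ℝ) - 1 := by
    rw [Nat.cast_sub hN1]; simp
  calc η * B ≤ η * ((exp (-(6 + s)) * η) ^ (N - 1) *
        ((2 ^ k) ^ (N - 1) * (100 ^ p k * 100 ^ p k))) :=
        mul_le_mul_of_nonneg_left (hB.trans hprod) hη.le
    _ ≤ exp (-(6 + s) * (p k - 1)) * ((exp (-(6 + s)) * exp (-(6 + s) * (p k - 1))) ^ (N - 1) *
        (exp (7 / 10 * k * (N - 1 : ℕ)) * (exp (49 / 10 * p k) * exp (49 / 10 * p k)))) := by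
        gcongr
    _ = exp (-(6 + s) * (p k * N - 1) + 7 / 10 * k * (N - 1) + 49 / 5 * p k) := by
        rw [← exp_add, ← exp_nat_mul, ← exp_add, ← exp_add, ← exp_add, ← exp_add, hNr]
        congr 1
        ring
    _ ≤ exp (-(6 + (1 / 2) ^ (k + 1)) * (p (k + 1) - 1)) := by
        apply exp_le_exp.2
        have hsN : s * N = 32 := by
          rw [hs, hN]
          push_cast
          rw [pow_add, one_div, inv_pow]
          field_simp
          norm_num
        have e1 : ((p (k + 1) : ℕ) : ℝ) = p k * N := by rw [p_succ, hN]; push_cast; ring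
        have e2 : ((1 : ℝ) / 2) ^ (k + 1) = s / 2 := by rw [pow_succ, hs]; ring
        rw [e1, e2]
        have h3 := aux_num k
        have hN3 : (N : ℝ) = 32 * 2 ^ k := by rw [hN, pow_add]; push_cast; ring
        have h4 : s * (p k * N) = 32 * p k := by rw [← hsN]; ring
        have h5 : (0 : ℝ) ≤ k := Nat.cast_nonneg k
        have h6 : (k : ℝ) * (N - 1) ≤ 8 * p k := by
          rw [hN3]; nlinarith
        nlinarith

theorem blocks (hlam : 2 * exp 7 ≤ lam) (h : Sol lam E K u) :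
    ∀ k, k ≤ K → ∃ g η g' : ℝ, Blk K u k g η g' ∧ 0 < η ∧
      η ≤ exp (-(6 + (1 / 2) ^ k) * (p k - 1)) := by
  intro k
  induction k with
  | zero =>
    intro _
    refine ⟨0, 1, 0, ?_, one_pos, ?_⟩
    · intro n _ _ _
      simp [p_zero]
    · simp [p_zero]
  | succ k ih =>
    intro hk
    obtain ⟨g, η, g', hb, hη, hη2⟩ := ih (by omega)
    have ha := a_nonneg h (by omega) hη hb
    set N := 2 ^ (k + 5) with hN
    have hN1 : 2 ≤ N := by
      calc 2 = 2 ^ 1 := by norm_num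
        _ ≤ 2 ^ (k + 5) := Nat.pow_le_pow_right (by norm_num) (by omega)
    have hlam0 : 0 < lam := lt_of_lt_of_le (by have := exp_pos 7; linarith) hlam
    set c : ℕ → ℝ := fun m => (E - g - g' + lam * w ((m : ℤ) * p k)) / η with hc
    have hcge : ∀ m, 1 ≤ m → m ≤ N - 1 → lam * w ((m : ℤ) * p k) / η ≤ c m := by
      intro m _ _
      exact div_le_div_of_nonneg_right (by linarith) hη.le
    have hbig : ∀ m, 1 ≤ m → m ≤ N - 1 → 4 ≤ lam * w ((m : ℤ) * p k) / η := by
      intro m h1 h2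
      rw [le_div_iff₀ hη]
      have h3 := ratio hlam hη2 (w_mul_ge (k := k) (m := m) h1 (by omega))
      have h4 : (1 : ℝ) ≤ 4 ^ p k := one_le_pow₀ (by norm_num)
      nlinarith
    obtain ⟨A, B, A', hB0, hBp, hA0, hA1, hch⟩ := chain c (N - 1) fun m h1 h2 =>
      (hbig m h1 h2).trans (hcge m h1 h2)
    refine ⟨g + η * A, η * B, g' + η * A', ?_, mul_pos hη hB0, ?_⟩
    · intro n hn h1 h2
      have hpp : (p (k + 1) : ℤ) = N * p k := by rw [p_succ, hN]; push_cast; ring
      have hp0 : (0 : ℤ) < p k := by exact_mod_cast p_pos k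
      have hnk : ((p k : ℕ) : ℤ) ∣ n := (Int.natCast_dvd_natCast.2 (p_dvd (by omega))).trans hn
      have hN1' : (N : ℤ) - 1 + 1 = N := by ring
      have hx := hch (fun m => u (n + m * p k)) (by
        intro m h3 h4
        have hm1 : (1 : ℤ) ≤ m := by exact_mod_cast h3
        have hm2 : (m : ℤ) + 1 ≤ N := by
          have : m + 1 ≤ N := by omega
          exact_mod_cast this
        have hw := well h hb (n := n + m * p k) (hnk.add (Dvd.intro_left _ rfl))
          (by nlinarith) (by nlinarith)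
        have hnd : ¬ ((p (k + 1) : ℕ) : ℤ) ∣ (m : ℤ) * p k := by
          intro hd
          have h5 := Int.le_of_dvd (mul_pos (by linarith) hp0) hd
          rw [hpp] at h5
          nlinarith
        have hww : w (n + m * p k) = w ((m : ℤ) * p k) := by
          rw [add_comm]; exact w_add hnd hn
        rw [hww] at hw
        have e1 : n + (m : ℤ) * p k + p k = n + ((m + 1 : ℕ) : ℤ) * p k := by push_cast; ring
        have e2 : n + (m : ℤ) * p k - p k = n + ((m - 1 : ℕ) : ℤ) * p k := by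
          rw [Nat.cast_sub h3]; push_cast; ring
        rw [e1, e2] at hw
        simp only [hc]
        rw [div_mul_eq_mul_div, div_eq_iff hη.ne', hw]
        ring)
      obtain ⟨hx1, hx2⟩ := hx
      have eN : N - 1 + 1 = N := by omega
      rw [eN] at hx1 hx2
      have e3 : n + ((N - 1 : ℕ) : ℤ) * p k = n + p (k + 1) - p k := by
        rw [Nat.cast_sub (by omega), hpp]; push_cast; ring
      have e4 : n + ((N : ℕ) : ℤ) * p k = n + p (k + 1) := by rw [hpp]
      have e5 : n + ((0 : ℕ) : ℤ) * p k = n := by simp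
      have e6 : n + ((1 : ℕ) : ℤ) * p k = n + p k := by simp
      simp only [e3, e4, e5, e6] at hx1 hx2
      have hN1z : (2 : ℤ) ≤ N := by exact_mod_cast hN1
      have b1 := (hb n hnk h1 (by rw [hpp] at h2; nlinarith)).1
      have b2 := (hb (n + p (k + 1) - p k) (by
        refine dvd_sub (hnk.add ?_) dvd_rfl
        exact Int.natCast_dvd_natCast.2 (p_dvd (by omega))) (by rw [hpp]; nlinarith)
        (by linarith)).2
      have e7 : n + (p (k + 1) : ℤ) - p k + p k = n + p (k + 1) := by ring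
      rw [e7] at b2
      constructor
      · rw [b1, hx1]; ring
      · rw [b2, hx2]; ring
    · refine step_bound hlam hη hη2 (hBp.trans ?_)
      rw [← hN]
      refine Finset.prod_le_prod (fun m hm => ?_) fun m hm => ?_
      · rw [Finset.mem_Icc] at hm
        have := (hbig m hm.1 hm.2).trans (hcge m hm.1 hm.2)
        positivity
      · rw [Finset.mem_Icc] at hm
        have h1 := hbig m hm.1 hm.2
        have h2 := hcge m hm.1 hm.2
        have hw0 : 0 < w ((m : ℤ) * p k) := by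
          have := w_mul_ge (k := k) (m := m) hm.1 (by omega)
          exact lt_of_lt_of_le (by positivity) this
        calc 2 / c m ≤ 2 / (lam * w ((m : ℤ) * p k) / η) :=
              div_le_div_of_nonneg_left (by norm_num) (by linarith) h2
          _ = 2 * η / lam * (w ((m : ℤ) * p k))⁻¹ := by
              field_simp

end Pool.Agent.H695R3.LP
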