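import Mathlib

set_option autoImplicit false

namespace Pool.Agent.H695R3.LP

/-- Solving a chain of relations `c_m x_m = x_{m-1} + x_{m+1}`. -/
theorem chain (c : ℕ → ℝ) (n : ℕ) (hc : ∀ m, 1 ≤ m → m ≤ n → 4 ≤ c m) :
    ∃ A B A' : ℝ, 0 < B ∧ B ≤ ∏ m ∈ Finset.Icc 1 n, (2 / c m) ∧ 0 ≤ A' ∧ A' ≤ 1 ∧
      ∀ x : ℕ → ℝ, (∀ m, 1 ≤ m → m ≤ n → c m * x m = x (m - 1) + x (m + 1)) →
        x 1 = A * x 0 + B * x (n + 1) ∧ x n = B * x 0 + A' * x (n + 1) := by
  induction n with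
  | zero =>
    refine ⟨0, 1, 0, one_pos, by simp, le_rfl, zero_le_one, fun x _ => ?_⟩
    constructor <;> simp
  | succ n ih =>
    obtain ⟨A, B, A', hB, hBp, hA0, hA1, h⟩ := ih (fun m h1 h2 => hc m h1 (by omega))
    have hcn := hc (n + 1) (by omega) le_rfl
    have hd : 0 < c (n + 1) - A' := by linarith
    have hd2 : c (n + 1) / 2 ≤ c (n + 1) - A' := by linarith
    refine ⟨A + B * (B / (c (n + 1) - A')), B / (c (n + 1) - A'), 1 / (c (n + 1) - A'),
      div_pos hB hd, ?_, by positivity, ?_, ?_⟩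
    · have hsplit : ∏ m ∈ Finset.Icc 1 (n + 1), (2 / c m) =
          (∏ m ∈ Finset.Icc 1 n, (2 / c m)) * (2 / c (n + 1)) :=
        Finset.prod_Icc_succ_top (by omega) _
      rw [hsplit, div_eq_mul_inv]
      have h1 : (c (n + 1) - A')⁻¹ ≤ 2 / c (n + 1) := by
        rw [inv_eq_one_div, div_le_div_iff₀ hd (by linarith)]
        linarith
      exact mul_le_mul hBp h1 (inv_pos.2 hd).le (hB.le.trans hBp)
    · rw [div_le_one hd]; linarith
    · intro x hx
      obtain ⟨h1, h2⟩ := h x (fun m h3 h4 => hx m h3 (by omega))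
      have h3 := hx (n + 1) (by omega) le_rfl
      rw [Nat.add_sub_cancel, h2] at h3
      have h4 : x (n + 1) = B / (c (n + 1) - A') * x 0 + 1 / (c (n + 1) - A') * x (n + 1 + 1) := by
        field_simp
        linarith
      refine ⟨?_, h4⟩
      rw [h1, h4]
      ring

end Pool.Agent.H695R3.LP
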