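import Mathlib

set_option autoImplicit false

open Matrix Filter Topology

namespace Pool.Agent.H695R3.LP

attribute [local instance] Matrix.linftyOpNormedRing Matrix.linftyOpNormedAlgebra

abbrev M2 := Matrix (Fin 2) (Fin 2) ℝ

lemma norm_M2 (A : M2) : ‖A‖ = max (|A 0 0| + |A 0 1|) (|A 1 0| + |A 1 1|) := by
  have h : ‖A‖ = ((Finset.univ.sup fun i => ∑ j, ‖A i j‖₊ : NNReal) : ℝ) := linfty_opNorm_def A
  have h2 : (Finset.univ.sup fun i : Fin 2 => ∑ j : Fin 2, ‖A i j‖₊) =
      (∑ j : Fin 2, ‖A 0 j‖₊) ⊔ (∑ j : Fin 2, ‖A 1 j‖₊) := by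
    apply le_antisymm
    · refine Finset.sup_le fun i _ => ?_
      fin_cases i
      · exact le_sup_left
      · exact le_sup_right
    · exact sup_le (Finset.le_sup (f := fun i : Fin 2 => ∑ j : Fin 2, ‖A i j‖₊) (Finset.mem_univ 0))
        (Finset.le_sup (f := fun i : Fin 2 => ∑ j : Fin 2, ‖A i j‖₊) (Finset.mem_univ 1))
  rw [h, h2, Fin.sum_univ_two, Fin.sum_univ_two]
  rfl

/-- one step transfer matrix -/
def T (x : ℝ) : M2 := !![x, -1; 1, 0]

lemma norm_T {x : ℝ} (hx : |x| ≤ 4) : ‖T x‖ ≤ 5 := by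
  rw [norm_M2]
  simp [T]
  linarith

lemma norm_T_sub (x y : ℝ) : ‖T x - T y‖ = |x - y| := by
  rw [norm_M2]
  simp [T]

/-- the transfer matrices -/
def tm (x : ℤ → ℝ) (a : ℤ) : ℕ → M2
  | 0 => 1
  | m + 1 => T (x (a + m)) * tm x a m

lemma det_tm (x : ℤ → ℝ) (a : ℤ) (m : ℕ) : (tm x a m).det = 1 := by
  induction m with
  | zero => simp [tm]
  | succ m ih =>
    rw [tm, det_mul, ih, T]
    simp

lemma norm_tm {x : ℤ → ℝ} (hx : ∀ n, |x n| ≤ 4) (a : ℤ) (m : ℕ) : ‖tm x a m‖ ≤ 5 ^ m := by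
  induction m with
  | zero => simp [tm]
  | succ m ih =>
    rw [tm, pow_succ, mul_comm ((5 : ℝ) ^ m)]
    exact (linfty_opNorm_mul _ _).trans
      (mul_le_mul (norm_T (hx _)) ih (norm_nonneg _) (by norm_num))

lemma norm_tm_sub {x : ℤ → ℝ} (hx : ∀ n, |x n| ≤ 4) (a b : ℤ) {e : ℝ} (m : ℕ)
    (he : ∀ i : ℕ, i < m → |x (a + i) - x (b + i)| ≤ e) :
    ‖tm x a m - tm x b m‖ ≤ m * 5 ^ m * e := by
  induction m with
  | zero => simp [tm]
  | succ m ih =>
    have h1 := ih fun i hi => he i (by omega)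
    have h2 := he m (by omega)
    have e1 : tm x a (m + 1) - tm x b (m + 1) =
        T (x (a + m)) * (tm x a m - tm x b m) + (T (x (a + m)) - T (x (b + m))) * tm x b m := by
      rw [tm, tm]
      noncomm_ring
    have he0 : 0 ≤ e := (abs_nonneg _).trans h2
    rw [e1]
    calc _ ≤ ‖T (x (a + m)) * (tm x a m - tm x b m)‖ +
          ‖(T (x (a + m)) - T (x (b + m))) * tm x b m‖ := norm_add_le _ _
      _ ≤ 5 * (m * 5 ^ m * e) + e * 5 ^ m := by
          refine add_le_add ((linfty_opNorm_mul _ _).trans ?_) ((linfty_opNorm_mul _ _).trans ?_)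
          · exact mul_le_mul (norm_T (hx _)) h1 (norm_nonneg _) (by norm_num)
          · refine mul_le_mul ?_ (norm_tm hx _ _) (norm_nonneg _) he0
            rw [norm_T_sub]; exact h2
      _ ≤ ((m + 1 : ℕ) : ℝ) * 5 ^ (m + 1) * e := by
          push_cast
          rw [pow_succ]
          have : (0 : ℝ) ≤ 5 ^ m * e := by positivity
          nlinarith

lemma norm_adj (A : M2) : ‖A.adjugate‖ ≤ 2 * ‖A‖ := by
  rw [norm_M2, norm_M2, adjugate_fin_two]
  have h1 := le_max_left (|A 0 0| + |A 0 1|) (|A 1 0| + |A 1 1|)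
  have h2 := le_max_right (|A 0 0| + |A 0 1|) (|A 1 0| + |A 1 1|)
  have a := abs_nonneg (A 0 0)
  have b := abs_nonneg (A 0 1)
  have c := abs_nonneg (A 1 0)
  have d := abs_nonneg (A 1 1)
  apply max_le <;> simp <;> linarith

lemma cayley (A : M2) (hA : A.det = 1) : A * A = (A 0 0 + A 1 1) • A - 1 := by
  rw [det_fin_two] at hA
  ext i j
  fin_cases i <;> fin_cases j <;> simp [Matrix.mul_apply, Fin.sum_univ_two] <;>
    first | linear_combination hA | linear_combination -hA | ring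

lemma add_adj (A : M2) : A + A.adjugate = (A 0 0 + A 1 1) • (1 : M2) := by
  rw [adjugate_fin_two]
  ext i j
  fin_cases i <;> fin_cases j <;> simp [add_comm]

/-- the vector of a solution -/
def vec (u : ℤ → ℝ) (n : ℤ) : Fin 2 → ℝ := ![u n, u (n - 1)]

lemma vec_tm {x u : ℤ → ℝ} (hu : ∀ n, u (n + 1) = x n * u n - u (n - 1)) (a : ℤ) (m : ℕ) :
    vec u (a + m) = tm x a m *ᵥ vec u a := by
  induction m with
  | zero => simp [tm]
  | succ m ih =>
    rw [tm, ← mulVec_mulVec, ← ih]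
    have e : a + ((m + 1 : ℕ) : ℤ) = (a + m) + 1 := by push_cast; ring
    rw [e]
    ext i
    fin_cases i
    · simp [vec, T, hu (a + m)]
      ring
    · simp [vec, T]

/-- **Gordon's lemma.** -/
theorem gordon (x : ℤ → ℝ) (hx : ∀ n, |x n| ≤ 4) (u : ℤ → ℝ)
    (hu : ∀ n, u (n + 1) = x n * u n - u (n - 1)) (hlim : Tendsto u cofinite (𝓝 0))
    (hrep : ∀ N : ℕ, ∃ q : ℕ, N ≤ q ∧ 1 ≤ q ∧
      ∀ i : ℤ, -(q : ℤ) ≤ i → i < q → |x (i + q) - x i| ≤ (1 / 100) ^ q) : u = 0 := by
  -- key estimate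
  have key : ∀ q : ℕ, 1 ≤ q → (∀ i : ℤ, -(q : ℤ) ≤ i → i < q → |x (i + q) - x i| ≤ (1 / 100) ^ q) →
      ‖vec u 0‖ ≤ 2 * (‖vec u q‖ + ‖vec u (2 * q)‖ + ‖vec u (-q)‖) := by
    intro q hq hr
    set X := tm x 0 q with hX
    set Y := tm x q q with hY
    set Z := tm x (-q) q with hZ
    have hXq : vec u q = X *ᵥ vec u 0 := by simpa using vec_tm hu 0 q
    have hYq : vec u (2 * q) = Y *ᵥ vec u q := by
      have := vec_tm hu q q
      rw [two_mul]; exact this
    have hZq : vec u 0 = Z *ᵥ vec u (-q) := by simpa using vec_tm hu (-q) q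
    have hXY : ‖X - Y‖ ≤ q * 5 ^ q * (1 / 100) ^ q := by
      refine norm_tm_sub hx 0 q q fun i hi => ?_
      have := hr i (by omega) (by omega)
      rw [abs_sub_comm, zero_add, add_comm (q : ℤ)]
      exact this
    have hZX : ‖Z - X‖ ≤ q * 5 ^ q * (1 / 100) ^ q := by
      refine norm_tm_sub hx (-q) 0 q fun i hi => ?_
      have := hr (-q + i) (by omega) (by omega)
      rw [abs_sub_comm]
      have e : (-(q : ℤ) + i) + q = 0 + i := by ring
      rw [e] at this
      exact this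
    have hXn : ‖X‖ ≤ 5 ^ q := norm_tm hx 0 q
    have hdet : X.det = 1 := det_tm x 0 q
    have hsmall : (2 * 5 ^ q) * (q * 5 ^ q * (1 / 100) ^ q) ≤ (1 : ℝ) := by
      have h1 : (q : ℝ) * 2 ≤ 4 ^ q := by
        have : q * 2 ≤ 4 ^ q := by
          clear * - hq
          induction q, hq using Nat.le_induction with
          | base => norm_num
          | succ n hn ih => rw [pow_succ]; omega
        exact_mod_cast this
      have h2 : (2 * 5 ^ q) * (q * 5 ^ q * (1 / 100 : ℝ) ^ q) = q * 2 * (1 / 4) ^ q := by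
        have : ((1 : ℝ) / 4) ^ q = 5 ^ q * 5 ^ q * (1 / 100) ^ q := by
          rw [← mul_pow, ← mul_pow]; norm_num
        rw [this]; ring
      rw [h2, one_div, inv_pow, ← div_eq_mul_inv, div_le_one (by positivity)]
      exact h1
    have hsmall' : (q : ℝ) * 5 ^ q * (1 / 100) ^ q ≤ 1 := by
      have h3 : (1 : ℝ) ≤ 2 * 5 ^ q := by
        have : (1 : ℝ) ≤ 5 ^ q := one_le_pow₀ (by norm_num)
        linarith
      have h4 : (0 : ℝ) ≤ q * 5 ^ q * (1 / 100) ^ q := by positivity
      nlinarith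
    set t := X 0 0 + X 1 1 with ht
    have n1 := norm_nonneg (vec u q)
    have n2 := norm_nonneg (vec u (2 * q))
    have n3 := norm_nonneg (vec u (-q))
    by_cases hc : |t| ≤ 1
    · have h1 : vec u 0 = t • vec u q - vec u (2 * q) - (X - Y) *ᵥ vec u q := by
        have h2 : X *ᵥ vec u q = t • vec u q - vec u 0 := by
          have h3 : (X * X) *ᵥ vec u 0 = t • (X *ᵥ vec u 0) - vec u 0 := by
            rw [cayley X hdet, sub_mulVec, smul_mulVec, one_mulVec]
          rw [← mulVec_mulVec, ← hXq] at h3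
          exact h3
        rw [sub_mulVec, ← hYq, h2]
        abel
      rw [h1]
      calc _ ≤ ‖t • vec u q‖ + ‖vec u (2 * q)‖ + ‖(X - Y) *ᵥ vec u q‖ :=
            (norm_sub_le _ _).trans (add_le_add_left (norm_sub_le _ _) _)
        _ ≤ 1 * ‖vec u q‖ + ‖vec u (2 * q)‖ + 1 * ‖vec u q‖ := by
            refine add_le_add (add_le_add ?_ le_rfl) ((linfty_opNorm_mulVec _ _).trans ?_)
            · rw [norm_smul, Real.norm_eq_abs]
              exact mul_le_mul_of_nonneg_right hc n1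
            · exact mul_le_mul_of_nonneg_right (hXY.trans hsmall') n1
        _ ≤ _ := by linarith
    · rw [not_le] at hc
      have h1 : t • vec u 0 = vec u q + (vec u (-q) + X.adjugate *ᵥ ((Z - X) *ᵥ vec u (-q))) := by
        have h2 : t • vec u 0 = X *ᵥ vec u 0 + X.adjugate *ᵥ vec u 0 := by
          rw [← add_mulVec, add_adj, smul_mulVec, one_mulVec]
        rw [h2, ← hXq]
        congr 1
        have h3 : X.adjugate *ᵥ (X *ᵥ vec u (-q)) = vec u (-q) := by
          rw [mulVec_mulVec, adjugate_mul, hdet, one_smul, one_mulVec]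
        rw [sub_mulVec, mulVec_sub, ← hZq, h3]
        abel
      have h2 : ‖vec u 0‖ ≤ ‖t • vec u 0‖ := by
        rw [norm_smul, Real.norm_eq_abs]
        have := norm_nonneg (vec u 0)
        nlinarith
      refine h2.trans ?_
      rw [h1]
      calc _ ≤ ‖vec u q‖ + (‖vec u (-q)‖ + ‖X.adjugate *ᵥ ((Z - X) *ᵥ vec u (-q))‖) :=
            (norm_add_le _ _).trans (add_le_add le_rfl (norm_add_le _ _))
        _ ≤ ‖vec u q‖ + (‖vec u (-q)‖ + 1 * ‖vec u (-q)‖) := by
            refine add_le_add le_rfl (add_le_add le_rfl ?_)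
            refine (linfty_opNorm_mulVec _ _).trans ?_
            have h5 : ‖(Z - X) *ᵥ vec u (-q)‖ ≤ (q * 5 ^ q * (1 / 100) ^ q) * ‖vec u (-q)‖ :=
              (linfty_opNorm_mulVec _ _).trans (mul_le_mul_of_nonneg_right hZX n3)
            have h6 : ‖X.adjugate‖ ≤ 2 * 5 ^ q :=
              (norm_adj X).trans (mul_le_mul_of_nonneg_left hXn (by norm_num))
            calc ‖X.adjugate‖ * ‖(Z - X) *ᵥ vec u (-q)‖
                ≤ (2 * 5 ^ q) * ((q * 5 ^ q * (1 / 100) ^ q) * ‖vec u (-q)‖) :=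
                  mul_le_mul h6 h5 (norm_nonneg _) (by positivity)
              _ = ((2 * 5 ^ q) * (q * 5 ^ q * (1 / 100) ^ q)) * ‖vec u (-q)‖ := by ring
              _ ≤ 1 * ‖vec u (-q)‖ := mul_le_mul_of_nonneg_right hsmall n3
        _ ≤ _ := by linarith
  -- the limit
  have hv : Tendsto (vec u) cofinite (𝓝 0) := by
    rw [tendsto_pi_nhds]
    intro i
    fin_cases i
    · exact hlim
    · have : Function.Injective fun n : ℤ => n - 1 := fun a b h => by simpa using h
      exact hlim.comp this.tendsto_cofinite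
  have hv0 : vec u 0 = 0 := by
    rw [← norm_eq_zero]
    refine le_antisymm (le_of_forall_pos_le_add fun ε hε => ?_) (norm_nonneg _)
    have h1 : ∀ᶠ n : ℤ in cofinite, ‖vec u n‖ < ε / 6 := by
      have := hv.norm
      rw [norm_zero] at this
      exact this.eventually_lt_const (by positivity)
    have h2 : {n : ℤ | ¬ ‖vec u n‖ < ε / 6}.Finite := h1
    obtain ⟨B, hB⟩ : ∃ B : ℕ, ∀ n : ℤ, B < n.natAbs → ‖vec u n‖ < ε / 6 := by
      obtain ⟨B, hB⟩ := (h2.image Int.natAbs).bddAbove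
      refine ⟨B, fun n hn => ?_⟩
      by_contra hcon
      have := hB (Set.mem_image_of_mem Int.natAbs hcon)
      omega
    obtain ⟨q, hq1, hq2, hq3⟩ := hrep (B + 1)
    have h3 := key q hq2 hq3
    have b1 := hB q (by omega)
    have b2 := hB (2 * q) (by omega)
    have b3 := hB (-q) (by omega)
    linarith
  have h0 : u 0 = 0 := by simpa [vec] using congrFun hv0 0
  have h1 : u (-1) = 0 := by simpa [vec] using congrFun hv0 1
  have hright : ∀ n : ℕ, u n = 0 ∧ u ((n : ℤ) - 1) = 0 := by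
    intro n
    induction n with
    | zero => exact ⟨by simpa using h0, by simpa using h1⟩
    | succ n ih =>
      push_cast
      refine ⟨?_, by simpa using ih.1⟩
      rw [hu, ih.1, ih.2]; simp
  have hleft : ∀ n : ℕ, u (-(n : ℤ)) = 0 ∧ u (-(n : ℤ) - 1) = 0 := by
    intro n
    induction n with
    | zero => exact ⟨by simpa using h0, by simpa using h1⟩
    | succ n ih =>
      have e3 : -((n + 1 : ℕ) : ℤ) = -(n : ℤ) - 1 := by push_cast; ring
      rw [e3]
      refine ⟨ih.2, ?_⟩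
      have := hu (-(n : ℤ) - 1)
      rw [sub_add_cancel, ih.1, ih.2] at this
      linarith
  funext n
  rcases le_total 0 n with h | h
  · have := (hright n.toNat).1
    rwa [Int.toNat_of_nonneg h] at this
  · have := (hleft (-n).toNat).1
    rwa [Int.toNat_of_nonneg (by omega), neg_neg] at this

end Pool.Agent.H695R3.LP
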