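import Mathlib

set_option autoImplicit false

open Matrix

namespace Pool.Agent.H695R3.LP

section mat

variable {ι : Type*} [Fintype ι] [DecidableEq ι]

/-- A real symmetric matrix with nonnegative off-diagonal entries has a nonnegative
eigenvector. -/
theorem pf_matrix [Nonempty ι] (M : Matrix ι ι ℝ) (hM : M.IsHermitian)
    (hpos : ∀ i j, i ≠ j → 0 ≤ M i j) :
    ∃ (E : ℝ) (v : ι → ℝ), (∀ i, 0 ≤ v i) ∧ v ≠ 0 ∧ M *ᵥ v = E • v := by
  set T : EuclideanSpace ℝ ι →L[ℝ] EuclideanSpace ℝ ι := toEuclideanCLM (𝕜 := ℝ) M with hT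
  have hTs : IsSelfAdjoint T := by
    have h1 : star M = M := hM
    change star T = T
    rw [hT, ← map_star, h1]
  have hQ : ∀ x : EuclideanSpace ℝ ι, T.reApplyInnerSelf x = ∑ i, ∑ j, M i j * (x i * x j) := by
    intro x
    rw [ContinuousLinearMap.reApplyInnerSelf_apply, real_inner_comm, hT, inner_toEuclideanCLM]
    simp only [dotProduct, mulVec, Finset.mul_sum, RCLike.re_to_real]
    refine Finset.sum_congr rfl fun i _ => Finset.sum_congr rfl fun j _ => ?_
    ring
  have hcomp : IsCompact (Metric.sphere (0 : EuclideanSpace ℝ ι) 1) := isCompact_sphere _ _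
  have hne : (Metric.sphere (0 : EuclideanSpace ℝ ι) 1).Nonempty := by
    obtain ⟨i⟩ := (inferInstance : Nonempty ι)
    exact ⟨EuclideanSpace.single i 1, by simp⟩
  obtain ⟨x, hx, hmax⟩ := hcomp.exists_isMaxOn hne T.reApplyInnerSelf_continuous.continuousOn
  set y : EuclideanSpace ℝ ι := WithLp.toLp 2 fun i => |x i| with hy
  have hyi : ∀ i, y i = |x i| := fun i => rfl
  have hnorm : ‖y‖ = 1 := by
    rw [mem_sphere_zero_iff_norm] at hx
    rw [← hx, EuclideanSpace.norm_eq, EuclideanSpace.norm_eq]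
    simp [hyi]
  have hle : T.reApplyInnerSelf x ≤ T.reApplyInnerSelf y := by
    rw [hQ, hQ]
    refine Finset.sum_le_sum fun i _ => Finset.sum_le_sum fun j _ => ?_
    rw [hyi, hyi]
    by_cases hij : i = j
    · subst hij
      rw [abs_mul_abs_self]
    · refine mul_le_mul_of_nonneg_left ?_ (hpos i j hij)
      rw [← abs_mul]
      exact le_abs_self _
  have hymax : IsMaxOn T.reApplyInnerSelf (Metric.sphere (0 : EuclideanSpace ℝ ι) ‖y‖) y := by
    rw [hnorm]
    intro z hz
    exact (hmax hz).trans hle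
  have heig := hTs.eq_smul_self_of_isLocalExtrOn_real (Or.inr hymax.localize)
  refine ⟨T.rayleighQuotient y, y.ofLp, fun i => abs_nonneg _, ?_, ?_⟩
  · intro h0
    have : y = 0 := by
      ext i; exact congrFun h0 i
    rw [this, norm_zero] at hnorm
    exact zero_ne_one hnorm
  · have := congrArg WithLp.ofLp heig
    rw [hT, ofLp_toEuclideanCLM] at this
    rw [this]
    rfl

end mat

/-- the nonnegative ground state on a window -/
theorem ground (v : ℤ → ℝ) (P : ℕ) (hP : 0 < P) :
    ∃ (E : ℝ) (u : ℤ → ℝ), (∀ n, 0 ≤ u n) ∧ (∀ n : ℤ, (P : ℤ) ≤ |n| → u n = 0) ∧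
      (∃ n, u n ≠ 0) ∧
      ∀ n : ℤ, -(P : ℤ) < n → n < P → u (n + 1) + u (n - 1) + v n * u n = E * u n := by
  classical
  set s : Finset ℤ := Finset.Ioo (-(P : ℤ)) P with hs
  have h0s : (0 : ℤ) ∈ s := by rw [hs, Finset.mem_Ioo]; constructor <;> omega
  haveI : Nonempty s := ⟨⟨0, h0s⟩⟩
  set M : Matrix s s ℝ := fun i j => (if (j : ℤ) = (i : ℤ) + 1 then 1 else 0) +
    (if (j : ℤ) = (i : ℤ) - 1 then 1 else 0) + (if (j : ℤ) = i then v i else 0) with hM
  have hherm : M.IsHermitian := by
    ext i j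
    rw [conjTranspose_apply, star_trivial]
    simp only [hM]
    by_cases h1 : (i : ℤ) = j
    · have : i = j := Subtype.ext h1
      subst this
      rfl
    · have h2 : ¬ (j : ℤ) = i := fun h => h1 h.symm
      rw [if_neg h1, if_neg h2, add_zero, add_zero, add_comm]
      congr 1
      · exact if_congr (by omega) rfl rfl
      · exact if_congr (by omega) rfl rfl
  obtain ⟨E, x, hx0, hxne, hx⟩ := pf_matrix M hherm (by
    intro i j hij
    have h2 : ¬ (j : ℤ) = i := fun h => hij (Subtype.ext h.symm)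
    simp only [hM]
    rw [if_neg h2, add_zero]
    split_ifs <;> norm_num)
  set u : ℤ → ℝ := fun n => if h : n ∈ s then x ⟨n, h⟩ else 0 with hu
  have hsum : ∀ m : ℤ, ∑ j : s, (if (j : ℤ) = m then (1 : ℝ) else 0) * x j = u m := by
    intro m
    simp only [hu]
    by_cases hm : m ∈ s
    · rw [dif_pos hm, Finset.sum_eq_single (⟨m, hm⟩ : s)]
      · simp
      · intro j _ hj
        rw [if_neg, zero_mul]
        intro h
        exact hj (Subtype.ext h)
      · intro h; exact absurd (Finset.mem_univ _) h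
    · rw [dif_neg hm]
      refine Finset.sum_eq_zero fun j _ => ?_
      rw [if_neg, zero_mul]
      intro h
      exact hm (h ▸ j.2)
  refine ⟨E, u, ?_, ?_, ?_, ?_⟩
  · intro n
    simp only [hu]
    split_ifs
    · exact hx0 _
    · exact le_rfl
  · intro n hn
    simp only [hu]
    rw [dif_neg]
    rw [hs, Finset.mem_Ioo]
    rintro ⟨h1, h2⟩
    have := abs_lt.2 ⟨h1, h2⟩
    omega
  · by_contra hcon
    push Not at hcon
    apply hxne
    ext i
    have := hcon i
    simp only [hu] at this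
    rw [dif_pos i.2] at this
    exact this
  · intro n h1 h2
    have hn : n ∈ s := by rw [hs, Finset.mem_Ioo]; exact ⟨h1, h2⟩
    have h3 := congrFun hx ⟨n, hn⟩
    have hun : u n = x ⟨n, hn⟩ := by simp only [hu]; rw [dif_pos hn]
    simp only [mulVec, dotProduct, hM, Pi.smul_apply, smul_eq_mul] at h3
    have h4 : ∀ j : s, ((if (j : ℤ) = n + 1 then (1 : ℝ) else 0) +
        (if (j : ℤ) = n - 1 then (1 : ℝ) else 0) + (if (j : ℤ) = n then v n else 0)) * x j =
        (if (j : ℤ) = n + 1 then (1 : ℝ) else 0) * x j +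
        (if (j : ℤ) = n - 1 then (1 : ℝ) else 0) * x j +
        v n * ((if (j : ℤ) = n then (1 : ℝ) else 0) * x j) := by
      intro j
      split_ifs <;> ring
    rw [Finset.sum_congr rfl fun j _ => h4 j, Finset.sum_add_distrib, Finset.sum_add_distrib,
      ← Finset.mul_sum, hsum, hsum, hsum, ← hun] at h3
    exact h3

end Pool.Agent.H695R3.LP
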