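import Pool.Agent.H695R3.LP.Blk
import Pool.Agent.H695R3.LP.PF

set_option autoImplicit false

open Real Filter Topology

namespace Pool.Agent.H695R3.LP

variable {lam E : ℝ} {K : ℕ} {u : ℤ → ℝ}

lemma decay (hlam : 2 * exp 7 ≤ lam) (h : Sol lam E K u)
    (hz : ∀ n : ℤ, (p K : ℤ) ≤ |n| → u n = 0) (n : ℤ) : u n * 2 ^ n.natAbs ≤ u 0 := by
  classical
  have hP : (0 : ℤ) < p K := by exact_mod_cast p_pos K
  set S : Finset ℤ := Finset.Icc (-(p K : ℤ)) (p K) with hS
  have hne : S.Nonempty := ⟨0, by rw [hS, Finset.mem_Icc]; constructor <;> linarith⟩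
  obtain ⟨m, hm, hmax⟩ := S.exists_max_image (fun n => u n * 2 ^ n.natAbs) hne
  have hmaxall : ∀ n : ℤ, u n * 2 ^ n.natAbs ≤ u m * 2 ^ m.natAbs := by
    intro n
    by_cases hn : (p K : ℤ) ≤ |n|
    · rw [hz n hn, zero_mul]
      exact mul_nonneg (h.nonneg _) (by positivity)
    · refine hmax n ?_
      rw [hS, Finset.mem_Icc]
      have := abs_lt.1 (not_le.1 hn)
      constructor <;> linarith
  have hpos : 0 < u m * 2 ^ m.natAbs := by
    refine lt_of_lt_of_le ?_ (hmaxall 0)
    simpa using h.pos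
  suffices hm0 : m = 0 by
    have := hmaxall n
    rw [hm0] at this
    simpa using this
  by_contra hm0
  have hmlt : |m| < p K := by
    by_contra hcon
    rw [hz m (not_lt.1 hcon), zero_mul] at hpos
    exact lt_irrefl _ hpos
  obtain ⟨k, hk1, hk2⟩ := exists_level hm0
  have hkK : k < K := by
    by_contra hcon
    have h1 : ((p K : ℕ) : ℤ) ∣ m := (Int.natCast_dvd_natCast.2 (p_dvd (by omega))).trans hk1
    have h2 := Int.eq_zero_of_abs_lt_dvd h1 hmlt
    exact hm0 h2
  obtain ⟨g, η, g', hb, hη, hη2⟩ := blocks hlam h k hkK.le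
  have ha := a_nonneg h hkK.le hη hb
  have hpk0 : (0 : ℤ) < p k := by exact_mod_cast p_pos k
  have hpkK : ((p k : ℕ) : ℤ) ∣ (p K : ℤ) := Int.natCast_dvd_natCast.2 (p_dvd hkK.le)
  have hml := abs_lt.1 hmlt
  have hr1 : m + p k ≤ p K := by
    have h1 : ((p k : ℕ) : ℤ) ∣ (p K : ℤ) - m := dvd_sub hpkK hk1
    have h2 := Int.le_of_dvd (by linarith) h1
    linarith
  have hr2 : -(p K : ℤ) ≤ m - p k := by
    have h1 : ((p k : ℕ) : ℤ) ∣ (p K : ℤ) + m := dvd_add hpkK hk1
    have h2 := Int.le_of_dvd (by linarith) h1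
    linarith
  have hw := well h hb hk1 hr2 hr1
  have hwm : w m = f k m := w_eq hk1 hk2
  have hrat := ratio hlam hη2 (f_ge k m)
  rw [← hwm] at hrat
  have hum := h.nonneg m
  -- `4 * 4 ^ p k * u m ≤ u (m + p k) + u (m - p k)`
  have h3 : 4 * 4 ^ p k * u m ≤ u (m + p k) + u (m - p k) := by
    have h4 : η * (4 * 4 ^ p k * u m) ≤ η * (u (m + p k) + u (m - p k)) := by
      rw [← hw]
      have h5 := mul_le_mul_of_nonneg_right hrat hum
      nlinarith
    exact le_of_mul_le_mul_left h4 hη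
  set F := u m * 2 ^ m.natAbs with hF
  have h4 : ∀ a : ℤ, m.natAbs ≤ a.natAbs + p k → u a * 2 ^ m.natAbs ≤ 2 ^ p k * F := by
    intro a ha
    have h5 : (2 : ℝ) ^ m.natAbs ≤ 2 ^ a.natAbs * 2 ^ p k := by
      rw [← pow_add]
      exact pow_le_pow_right₀ (by norm_num) ha
    calc u a * 2 ^ m.natAbs ≤ u a * (2 ^ a.natAbs * 2 ^ p k) :=
          mul_le_mul_of_nonneg_left h5 (h.nonneg _)
      _ = 2 ^ p k * (u a * 2 ^ a.natAbs) := by ring
      _ ≤ 2 ^ p k * F := mul_le_mul_of_nonneg_left (hmaxall a) (by positivity)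
  have h5 := h4 (m + p k) (by omega)
  have h6 := h4 (m - p k) (by omega)
  have h7 : 4 * 4 ^ p k * F ≤ 2 * (2 ^ p k * F) := by
    have h8 := mul_le_mul_of_nonneg_right h3 (by positivity : (0 : ℝ) ≤ 2 ^ m.natAbs)
    calc 4 * 4 ^ p k * F = 4 * 4 ^ p k * u m * 2 ^ m.natAbs := by rw [hF]; ring
      _ ≤ (u (m + p k) + u (m - p k)) * 2 ^ m.natAbs := h8
      _ ≤ 2 * (2 ^ p k * F) := by linarith
  have h9 : (4 : ℝ) ^ p k = 2 ^ p k * 2 ^ p k := by rw [← mul_pow]; norm_num
  have h10 : (1 : ℝ) ≤ 2 ^ p k := one_le_pow₀ (by norm_num)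
  rw [h9] at h7
  have h11 : 0 < 2 ^ p k * F := by positivity
  nlinarith

/-- the ground state on the window of radius `p_K`, normalised -/
theorem window (hlam : 2 * exp 7 ≤ lam) (K : ℕ) :
    ∃ (E : ℝ) (u : ℤ → ℝ), (∀ n, u n ∈ Set.Icc (0 : ℝ) ((1 / 2) ^ n.natAbs)) ∧ u 0 = 1 ∧
      E ∈ Set.Icc (0 : ℝ) 2 ∧
      ∀ n : ℤ, -(p K : ℤ) < n → n < p K → u (n + 1) + u (n - 1) - lam * w n * u n = E * u n := by
  have hP : (0 : ℤ) < p K := by exact_mod_cast p_pos K
  obtain ⟨E, u, hu0, huz, ⟨m, hm⟩, heq⟩ := ground (fun n => -(lam * w n)) (p K) (p_pos K)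
  have heq' : ∀ n : ℤ, -(p K : ℤ) < n → n < p K →
      u (n + 1) + u (n - 1) = (E + lam * w n) * u n := by
    intro n h1 h2
    have := heq n h1 h2
    linarith
  have hu00 : u 0 ≠ 0 := by
    intro h0
    have e0 := heq' 0 (by linarith) hP
    rw [h0, mul_zero] at e0
    have e1 : u 1 = 0 := by
      have := hu0 (0 + 1); have := hu0 (0 - 1)
      simp only [zero_add] at *
      linarith
    have e2 : u (-1) = 0 := by
      have := hu0 (0 + 1); have := hu0 (0 - 1)
      simp only [zero_add, zero_sub] at *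
      linarith
    have hright : ∀ n : ℕ, u n = 0 ∧ u (n + 1) = 0 := by
      intro n
      induction n with
      | zero => exact ⟨by simpa using h0, by simpa using e1⟩
      | succ n ih =>
        refine ⟨by simpa using ih.2, ?_⟩
        by_cases hn : ((n : ℤ) + 1) < p K
        · have := heq' ((n : ℤ) + 1) (by omega) hn
          rw [add_sub_cancel_right, ih.1, ih.2] at this
          push_cast
          linarith
        · apply huz
          rw [abs_of_nonneg (by positivity)]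
          push_cast
          omega
    have hleft : ∀ n : ℕ, u (-(n : ℤ)) = 0 ∧ u (-(n : ℤ) - 1) = 0 := by
      intro n
      induction n with
      | zero => exact ⟨by simpa using h0, by simpa using e2⟩
      | succ n ih =>
        have e3 : -((n + 1 : ℕ) : ℤ) = -(n : ℤ) - 1 := by push_cast; ring
        refine ⟨by rw [e3]; exact ih.2, ?_⟩
        rw [e3]
        by_cases hn : -(p K : ℤ) < -(n : ℤ) - 1
        · have := heq' (-(n : ℤ) - 1) hn (by omega)
          rw [sub_add_cancel, ih.1, ih.2] at this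
          linarith
        · apply huz
          rw [abs_of_nonpos (by omega)]
          omega
    apply hm
    rcases le_total 0 m with h | h
    · have := (hright m.toNat).1
      rwa [Int.toNat_of_nonneg h] at this
    · have := (hleft (-m).toNat).1
      rwa [Int.toNat_of_nonneg (by omega), neg_neg] at this
  have hu0pos : 0 < u 0 := lt_of_le_of_ne (hu0 0) (Ne.symm hu00)
  have hsol : Sol lam E K u := ⟨hu0, heq', hu0pos⟩
  have hdec := decay hlam hsol huz
  have hbound : ∀ n, u n / u 0 ∈ Set.Icc (0 : ℝ) ((1 / 2) ^ n.natAbs) := by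
    intro n
    refine ⟨div_nonneg (hu0 n) hu0pos.le, ?_⟩
    rw [div_le_iff₀ hu0pos]
    have h1 := hdec n
    have h2 : (0 : ℝ) < 2 ^ n.natAbs := by positivity
    rw [one_div, inv_pow, inv_mul_eq_div, le_div_iff₀ h2]
    exact h1
  refine ⟨E, fun n => u n / u 0, hbound, div_self hu00, ?_, ?_⟩
  · have e0 := heq' 0 (by linarith) hP
    rw [w_zero, mul_zero, add_zero] at e0
    have h1 := hbound 1
    have h2 := hbound (-1)
    simp only [Set.mem_Icc] at h1 h2
    have e1 : E = u 1 / u 0 + u (-1) / u 0 := by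
      rw [← add_div, eq_div_iff hu00]
      simpa using e0.symm
    rw [e1]
    norm_num at h1 h2
    constructor <;> linarith
  · intro n h1 h2
    have := heq' n h1 h2
    field_simp
    linarith

/-- the localised solution -/
theorem localized (hlam : 2 * exp 7 ≤ lam) :
    ∃ (E : ℝ) (u : ℤ → ℝ), (∀ n, u n ∈ Set.Icc (0 : ℝ) ((1 / 2) ^ n.natAbs)) ∧ u 0 = 1 ∧
      ∀ n : ℤ, u (n + 1) + u (n - 1) - lam * w n * u n = E * u n := by
  choose E u hu h0 hE heq using fun K => window hlam K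
  have hc : IsCompact ((Set.univ.pi fun n : ℤ => Set.Icc (0 : ℝ) ((1 / 2) ^ n.natAbs)) ×ˢ
      Set.Icc (0 : ℝ) 2) := (isCompact_univ_pi fun _ => isCompact_Icc).prod isCompact_Icc
  obtain ⟨⟨v, e⟩, hv, φ, hφ, hlim⟩ := hc.tendsto_subseq (x := fun K => (u K, E K))
    (fun K => ⟨fun n _ => hu K n, hE K⟩)
  have hl1 : Tendsto (fun K => u (φ K)) atTop (𝓝 v) :=
    (continuous_fst.tendsto (v, e)).comp hlim
  have hl2 : Tendsto (fun K => E (φ K)) atTop (𝓝 e) :=
    (continuous_snd.tendsto (v, e)).comp hlim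
  have hln : ∀ n, Tendsto (fun K => u (φ K) n) atTop (𝓝 (v n)) := fun n =>
    (tendsto_pi_nhds.1 hl1) n
  refine ⟨e, v, fun n => hv.1 n (Set.mem_univ _), ?_, ?_⟩
  · refine tendsto_nhds_unique (hln 0) ?_
    simp only [h0]
    exact tendsto_const_nhds
  · intro n
    refine tendsto_nhds_unique (((hln (n + 1)).add (hln (n - 1))).sub
      ((hln n).const_mul (lam * w n))) (((hl2.mul (hln n))).congr' ?_)
    filter_upwards [hφ.tendsto_atTop.eventually_ge_atTop n.natAbs] with K hK
    have h1 := lt_p (φ K)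
    rw [heq (φ K) n (by omega) (by omega)]

end Pool.Agent.H695R3.LP
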