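import Mathlib
import Pool.Agent.Helper434.PSCplx

set_option autoImplicit false

open MeasureTheory Filter Topology

namespace Pool.Agent.H695R3.LP

section hilbert

variable {X : Type} [NormedAddCommGroup X] [InnerProductSpace ℂ X] [CompleteSpace X]

/-- the norm of `f(H) ψ` in terms of a spectral measure -/
lemma norm_sq_cfc {H : X →L[ℂ] X} (hH : IsSelfAdjoint H) {ψ : X} {μ : Measure ℝ}
    (hμ : ∀ f : ℝ → ℝ, Continuous f → inner ℂ ψ ((cfc f H) ψ) = ((∫ E, f E ∂μ : ℝ) : ℂ))
    {f : ℝ → ℝ} (hf : Continuous f) : ‖(cfc f H) ψ‖ ^ 2 = ∫ E, f E * f E ∂μ := by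
  have h1 : inner ℂ ((cfc f H) ψ) ((cfc f H) ψ) = inner ℂ ψ ((cfc (fun E => f E * f E) H) ψ) := by
    have hs : IsSelfAdjoint (cfc f H) := cfc_predicate f H
    rw [cfc_mul f f H hf.continuousOn hf.continuousOn, mul_apply_eq_comp]
    have := (ContinuousLinearMap.isSelfAdjoint_iff_isSymmetric.1 hs) ψ ((cfc f H) ψ)
    exact this
  rw [hμ (fun E => f E * f E) (hf.mul hf), inner_self_eq_norm_sq_to_K] at h1
  apply Complex.ofReal_injective
  rw [← h1]
  push_cast
  rfl

/-- the approximations of the indicator function of a point -/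
noncomputable def bump (x : ℝ) (k : ℕ) (y : ℝ) : ℝ := (1 / (1 + (y - x) ^ 2)) ^ (k + 1)

lemma bump_cont (x : ℝ) (k : ℕ) : Continuous (bump x k) := by
  unfold bump
  refine (Continuous.div continuous_const (by fun_prop) fun y => ?_).pow _
  positivity

lemma bump_nonneg (x : ℝ) (k : ℕ) (y : ℝ) : 0 ≤ bump x k y := by unfold bump; positivity

lemma base_le (x y : ℝ) : 1 / (1 + (y - x) ^ 2) ≤ 1 := by
  rw [div_le_one (by positivity)]
  nlinarith [sq_nonneg (y - x)]

lemma bump_le (x : ℝ) (k : ℕ) (y : ℝ) : bump x k y ≤ 1 :=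
  pow_le_one₀ (by positivity) (base_le x y)

lemma bump_self (x : ℝ) (k : ℕ) : bump x k x = 1 := by simp [bump]

lemma bump_tendsto (x y : ℝ) :
    Tendsto (fun k => bump x k y) atTop (𝓝 (Set.indicator {x} (fun _ => (1 : ℝ)) y)) := by
  by_cases h : y = x
  · subst h
    simp only [bump_self, Set.indicator_of_mem (Set.mem_singleton y)]
    exact tendsto_const_nhds
  · rw [Set.indicator_of_notMem (by simpa using h)]
    unfold bump
    have h1 : 0 < (y - x) ^ 2 := by
      have : y - x ≠ 0 := sub_ne_zero.2 h
      positivity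
    have h2 : 1 / (1 + (y - x) ^ 2) < 1 := by
      rw [div_lt_one (by positivity)]
      linarith
    exact (tendsto_pow_atTop_nhds_zero_of_lt_one (by positivity) h2).comp (tendsto_add_atTop_nat 1)

/-- An atom of a spectral measure is an eigenvalue. -/
theorem exists_eigenvector {H : X →L[ℂ] X} (hH : IsSelfAdjoint H) {ψ : X} {μ : Measure ℝ}
    [IsFiniteMeasure μ]
    (hμ : ∀ f : ℝ → ℝ, Continuous f → inner ℂ ψ ((cfc f H) ψ) = ((∫ E, f E ∂μ : ℝ) : ℂ))
    {x : ℝ} (hx : μ {x} ≠ 0) : ∃ φ : X, φ ≠ 0 ∧ H φ = (x : ℂ) • φ := by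
  set g : ℝ → ℝ := Set.indicator {x} (fun _ => (1 : ℝ)) with hg
  have hgm : Measurable g := (measurable_const.indicator (measurableSet_singleton x))
  have hg01 : ∀ y, 0 ≤ g y ∧ g y ≤ 1 := by
    intro y
    simp only [hg, Set.indicator_apply]
    split_ifs <;> norm_num
  have hbd : ∀ k y, ‖(bump x k y - g y) * (bump x k y - g y)‖ ≤ (1 : ℝ) := by
    intro k y
    have h1 := bump_nonneg x k y
    have h2 := bump_le x k y
    have h3 := hg01 y
    rw [Real.norm_eq_abs, abs_mul]
    have h4 : |bump x k y - g y| ≤ 1 := abs_le.2 ⟨by linarith [h3.2], by linarith [h3.1]⟩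
    nlinarith [abs_nonneg (bump x k y - g y)]
  set c : ℕ → ℝ := fun k => ∫ y, (bump x k y - g y) * (bump x k y - g y) ∂μ with hc
  have hint : ∀ k, Integrable (fun y => (bump x k y - g y) * (bump x k y - g y)) μ := fun k =>
    Integrable.of_bound (((bump_cont x k).measurable.sub hgm).mul
      ((bump_cont x k).measurable.sub hgm)).aestronglyMeasurable 1
      (Eventually.of_forall fun y => hbd k y)
  have hc0 : Tendsto c atTop (𝓝 0) := by
    have h1 : (0 : ℝ) = ∫ y, (0 : ℝ) ∂μ := by simp
    rw [h1]
    refine tendsto_integral_of_dominated_convergence (fun _ => (1 : ℝ)) (fun k => (hint k).1)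
      (integrable_const _) (fun k => Eventually.of_forall fun y => hbd k y)
      (Eventually.of_forall fun y => ?_)
    have h2 := (bump_tendsto x y).sub_const (g y)
    rw [show Set.indicator {x} (fun _ => (1 : ℝ)) y - g y = 0 from sub_self _] at h2
    have h3 := h2.mul h2
    rwa [mul_zero] at h3
  have hcn : ∀ k, 0 ≤ c k := fun k => integral_nonneg fun y => mul_self_nonneg _
  set a : ℕ → X := fun k => (cfc (bump x k) H) ψ with ha
  have hdist : ∀ k l, ‖a k - a l‖ ^ 2 ≤ 2 * c k + 2 * c l := by
    intro k l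
    have h1 : a k - a l = (cfc (fun y => bump x k y - bump x l y) H) ψ := by
      rw [cfc_sub (bump x k) (bump x l) H (bump_cont x k).continuousOn
        (bump_cont x l).continuousOn]
      rfl
    rw [h1, norm_sq_cfc hH hμ (f := fun y => bump x k y - bump x l y)
      ((bump_cont x k).sub (bump_cont x l)), hc]
    simp only
    rw [← integral_const_mul, ← integral_const_mul, ← integral_add ((hint k).const_mul 2)
      ((hint l).const_mul 2)]
    refine integral_mono_of_nonneg (Eventually.of_forall fun y => mul_self_nonneg _)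
      (((hint k).const_mul 2).add ((hint l).const_mul 2)) (Eventually.of_forall fun y => ?_)
    simp only
    nlinarith [sq_nonneg ((bump x k y - g y) + (bump x l y - g y))]
  have hcau : CauchySeq a := by
    rw [Metric.cauchySeq_iff]
    intro ε hε
    have h1 : ∀ᶠ k in atTop, c k < ε ^ 2 / 4 := hc0.eventually_lt_const (by positivity)
    obtain ⟨N, hN⟩ := eventually_atTop.1 h1
    refine ⟨N, fun k hk l hl => ?_⟩
    rw [dist_eq_norm]
    have h2 := hdist k l
    have h3 := hN k hk
    have h4 := hN l hl
    exact lt_of_pow_lt_pow_left₀ 2 hε.le (by linarith)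
  obtain ⟨φ, hφ⟩ := cauchySeq_tendsto_of_complete hcau
  have hnorm : ‖φ‖ ^ 2 = μ.real {x} := by
    have h1 : Tendsto (fun k => ‖a k‖ ^ 2) atTop (𝓝 (‖φ‖ ^ 2)) := hφ.norm.pow 2
    have h2 : Tendsto (fun k => ‖a k‖ ^ 2) atTop (𝓝 (μ.real {x})) := by
      have h3 : μ.real {x} = ∫ y, g y * g y ∂μ := by
        have : (fun y => g y * g y) = g := by
          funext y
          simp only [hg, Set.indicator_apply]
          split_ifs <;> norm_num
        rw [this, hg, integral_indicator_const _ (measurableSet_singleton x)]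
        simp
      rw [h3]
      have h4 : ∀ k, ‖a k‖ ^ 2 = ∫ y, bump x k y * bump x k y ∂μ := fun k =>
        norm_sq_cfc hH hμ (bump_cont x k)
      simp only [h4]
      refine tendsto_integral_of_dominated_convergence (fun _ => (1 : ℝ))
        (fun k => ((bump_cont x k).mul (bump_cont x k)).aestronglyMeasurable)
        (integrable_const _) (fun k => Eventually.of_forall fun y => ?_)
        (Eventually.of_forall fun y => (bump_tendsto x y).mul (bump_tendsto x y))
      rw [Real.norm_eq_abs, abs_of_nonneg (mul_nonneg (bump_nonneg _ _ _) (bump_nonneg _ _ _))]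
      exact mul_le_one₀ (bump_le _ _ _) (bump_nonneg _ _ _) (bump_le _ _ _)
    exact tendsto_nhds_unique h1 h2
  refine ⟨φ, ?_, ?_⟩
  · intro h0
    rw [h0, norm_zero] at hnorm
    have h1 : μ.real {x} = 0 := by rw [← hnorm]; norm_num
    rw [Measure.real, ENNReal.toReal_eq_zero_iff] at h1
    rcases h1 with h1 | h1
    · exact hx h1
    · exact measure_ne_top μ _ h1
  · have hlim : Tendsto (fun k => H (a k) - (x : ℂ) • a k) atTop (𝓝 (H φ - (x : ℂ) • φ)) :=
      ((H.continuous.tendsto φ).comp hφ).sub (hφ.const_smul _)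
    have hz : Tendsto (fun k => H (a k) - (x : ℂ) • a k) atTop (𝓝 0) := by
      have hcm : ∀ k, Continuous fun y => (y - x) * bump x k y := fun k =>
        (continuous_id.sub continuous_const).mul (bump_cont x k)
      have h1 : ∀ k, H (a k) - (x : ℂ) • a k = (cfc (fun y => (y - x) * bump x k y) H) ψ := by
        intro k
        have h2 : cfc (fun y : ℝ => y - x) H = H - algebraMap ℝ (X →L[ℂ] X) x := by
          rw [cfc_sub (fun y : ℝ => y) (fun _ => x) H, cfc_id' ℝ H, cfc_const x H]
        rw [cfc_mul (fun y => y - x) (bump x k) H (by fun_prop) (bump_cont x k).continuousOn, h2,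
          mul_apply_eq_comp, sub_apply,
          Algebra.algebraMap_eq_smul_one]
        congr 1
      rw [tendsto_zero_iff_norm_tendsto_zero]
      have h3 : Tendsto (fun k => ‖H (a k) - (x : ℂ) • a k‖ ^ 2) atTop (𝓝 0) := by
        have h4 : ∀ k, ‖H (a k) - (x : ℂ) • a k‖ ^ 2 =
            ∫ y, ((y - x) * bump x k y) * ((y - x) * bump x k y) ∂μ := fun k => by
          rw [h1, norm_sq_cfc hH hμ (hcm k)]
        simp only [h4]
        have h5 : (0 : ℝ) = ∫ y, (0 : ℝ) ∂μ := by simp
        rw [h5]
        refine tendsto_integral_of_dominated_convergence (fun _ => (1 : ℝ))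
          (fun k => ((hcm k).mul (hcm k)).aestronglyMeasurable)
          (integrable_const _) (fun k => Eventually.of_forall fun y => ?_)
          (Eventually.of_forall fun y => ?_)
        · have h6 : |(y - x) * bump x k y| ≤ 1 := by
            have h7 : bump x k y ≤ 1 / (1 + (y - x) ^ 2) := by
              unfold bump
              calc (1 / (1 + (y - x) ^ 2)) ^ (k + 1) ≤ (1 / (1 + (y - x) ^ 2)) ^ 1 :=
                    pow_le_pow_of_le_one (by positivity) (base_le x y) (by omega)
                _ = _ := pow_one _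
            rw [abs_mul, abs_of_nonneg (bump_nonneg x k y)]
            calc |y - x| * bump x k y ≤ |y - x| * (1 / (1 + (y - x) ^ 2)) :=
                  mul_le_mul_of_nonneg_left h7 (abs_nonneg _)
              _ ≤ 1 := by
                  rw [mul_one_div, div_le_one (by positivity)]
                  nlinarith [sq_abs (y - x), sq_nonneg (|y - x| - 1)]
          rw [Real.norm_eq_abs, abs_mul]
          nlinarith [abs_nonneg ((y - x) * bump x k y)]
        · have h8 : Tendsto (fun k => (y - x) * bump x k y) atTop (𝓝 0) := by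
            have h9 := (bump_tendsto x y).const_mul (y - x)
            have h10 : (y - x) * Set.indicator {x} (fun _ => (1 : ℝ)) y = 0 := by
              by_cases h : y = x
              · rw [h]; simp
              · rw [Set.indicator_of_notMem (by simpa using h), mul_zero]
            rwa [h10] at h9
          have := h8.mul h8
          rwa [mul_zero] at this
      have h6 := h3.sqrt
      rw [Real.sqrt_zero] at h6
      refine h6.congr fun k => ?_
      rw [Real.sqrt_sq (norm_nonneg _)]
    exact sub_eq_zero.1 (tendsto_nhds_unique hlim hz)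

/-- a vector whose spectral measure vanishes is zero -/
lemma eq_zero_of_measure {H : X →L[ℂ] X} (hH : IsSelfAdjoint H) {ψ : X} {μ : Measure ℝ}
    (hμ : ∀ f : ℝ → ℝ, Continuous f → inner ℂ ψ ((cfc f H) ψ) = ((∫ E, f E ∂μ : ℝ) : ℂ))
    (h0 : μ = 0) : ψ = 0 := by
  have h2 := norm_sq_cfc hH hμ (f := fun _ => 1) continuous_const
  rw [h0, integral_zero_measure, cfc_const_one ℝ H, one_apply_eq_self] at h2
  exact norm_eq_zero.1 (by simpa using h2)

end hilbert

end Pool.Agent.H695R3.LP
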